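import Pool.Agent.H58.FL.Targets

open Topology

namespace Pool.Agent.H53.FL

open Pool.Agent.H58.FL Pool.Agent.H59 Pool.Agent.H48.FR

noncomputable section

theorem pf_CPL (hLOW : T_LOW) (hLEI : T_LEI) : T_CPL := by
  intro X K hK L
  obtain ⟨-, h2, -, -, hd2, -, -, -, -, -, -⟩ := hLOW X
  induction L with
  | nil =>
    intro _ x _
    show (∑ i ∈ Finset.range (2 * 0 + 2), (-1 : ℝ) ^ i * (1 : ℝ)) = 0
    simp [Finset.sum_range_succ]
  | cons g L ih =>
    intro hL x hx
    have e : 2 * (g :: L).length = 2 + 2 * L.length := by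
      simp only [List.length_cons]; ring
    rw [e] at hx ⊢
    show dl (2 + 2 * L.length) (cup 2 (c2 g) (PL L)) x = 0
    rw [hLEI X 2 (2 * L.length) (c2 g) (PL L) (hd2 g) x, h2 g x]
    have hm : ∀ i, i ≤ 3 → x i ∈ fs (2 + 2 * L.length + 1) x := fun i hi => ⟨i, by omega, rfl⟩
    rw [hL g (by simp) _ hx _ (hm 0 (by omega)) _ (hm 1 (by omega)) _ (hm 2 (by omega)) _
      (hm 3 (by omega))]
    rw [ih (fun g' hg' => hL g' (by simp [hg'])) (sh 2 x)]
    · ring
    · refine hK _ hx _ ?_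
      rintro y ⟨i, hi, rfl⟩
      exact ⟨2 + i, by omega, rfl⟩

end

end Pool.Agent.H53.FL
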