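import Pool.Agent.H58.FL.Targets

open Topology

namespace Pool.Agent.H53.FL

open Pool.Agent.H58.FL Pool.Agent.H59 Pool.Agent.H48.FR

noncomputable section

theorem ev_add {X : Type} (k : ℕ) (α : Coc X) (c c' : LL (k + 1) X) :
    ev k α (c + c') = ev k α c + ev k α c' := by
  unfold ev
  rw [Finsupp.sum_add_index']
  · intro t; simp
  · intro t a b; push_cast; ring

theorem ev_zero {X : Type} (k : ℕ) (α : Coc X) : ev k α (0 : LL (k + 1) X) = 0 := by
  unfold ev
  exact Finsupp.sum_zero_index

theorem ev_single {X : Type} (k : ℕ) (α : Coc X) (t : Fin (k + 1) → X) (r : ℤ) :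
    ev k α (Finsupp.single t r) = r * α (ex t) := by
  unfold ev
  rw [Finsupp.sum_single_index]
  simp

theorem ev_smul {X : Type} (k : ℕ) (α : Coc X) (r : ℤ) (c : LL (k + 1) X) :
    ev k α (r • c) = r * ev k α c := by
  induction c using Finsupp.induction_linear with
  | zero => rw [smul_zero, ev_zero, mul_zero]
  | add u v hu hv => rw [smul_add, ev_add, ev_add, hu, hv, mul_add]
  | single a s =>
    rw [Finsupp.smul_single, ev_single, ev_single, smul_eq_mul]
    push_cast
    ring

theorem ev_sum {X ι : Type} (k : ℕ) (α : Coc X) (s : Finset ι) (c : ι → LL (k + 1) X) :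
    ev k α (∑ i ∈ s, c i) = ∑ i ∈ s, ev k α (c i) := by
  classical
  induction s using Finset.induction_on with
  | empty => simp [ev_zero]
  | insert a s ha ih => rw [Finset.sum_insert ha, Finset.sum_insert ha, ev_add, ih]

theorem pf_EVB : T_EVB := by
  intro X k α b ha
  induction b using Finsupp.induction_linear with
  | zero => rw [map_zero, ev_zero, ev_zero]
  | add u v hu hv => rw [map_add, ev_add, ev_add, hu, hv]
  | single t r =>
    rw [ev_single]
    unfold bdL
    rw [altbd_single, ev_smul, ev_sum]
    congr 1
    show _ = ∑ i ∈ Finset.range (k + 2), (-1 : ℝ) ^ i * α (om (ex t) i)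
    rw [Finset.sum_range]
    refine Finset.sum_congr rfl fun i _ => ?_
    rw [ev_smul, ev_single]
    have : α (ex (t ∘ i.succAbove)) = α (om (ex t) i) := by
      apply ha
      intro j hj
      show t (i.succAbove ⟨min j k, _⟩) = t ⟨min (if j < (i : ℕ) then j else j + 1) (k + 1), _⟩
      congr 1
      apply Fin.ext
      rw [Fin.succAbove]
      simp only [Fin.lt_def, Fin.val_castSucc]
      have hm : min j k = j := min_eq_left hj
      split_ifs with h1 h2 h2
      · simp only [Fin.val_castSucc]; omega
      · omega
      · omega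
      · simp only [Fin.val_succ]; omega
    rw [this]
    push_cast
    ring

end

end Pool.Agent.H53.FL
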