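import Pool.Agent.H58.FL.Targets

open Topology

namespace Pool.Agent.H53.FL

open Pool.Agent.H58.FL Pool.Agent.H59 Pool.Agent.H48.FR

noncomputable section

theorem pf_INV (hVTX : T_VTX) (hSUP : T_SUP) (hCPL : T_CPL) (hEVB : T_EVB) (hEVL : T_EVL)
    (hLOW : T_LOW) : T_INV := by
  intro Y _ K hK n L hn hL C hC hsup k
  obtain ⟨hv1, -, -⟩ := hVTX Y Y (2 * n + 1)
  obtain ⟨-, -, hv3⟩ := hVTX Y Y (2 * n + 1 + 1)
  obtain ⟨-, -, -, -, -, -, -, -, hPL, -, -⟩ := hLOW Y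
  have h1 := bd_DI (2 * n) k C
  rw [hC, map_zero, sub_zero] at h1
  have h2 : vx (2 * n + 1) C - vx (2 * n + 1) (SdI (2 * n + 1) k C) =
      bdL (2 * n + 1) Y (vx (2 * n + 1 + 1) (DI (2 * n + 1) k C)) := by
    rw [hv1, h1, map_sub]
  have hPn : Dep (2 * n) (PL L) := by rw [← hn]; exact hPL L
  have h3 := hEVB Y (2 * n) (PL L) (vx (2 * n + 1 + 1) (DI (2 * n + 1) k C)) hPn
  obtain ⟨ha, hb, -, -, h5, -, -⟩ := hEVL Y (2 * n + 1)
  obtain ⟨ha', hb', -, -, -, -, -⟩ := hEVL Y (2 * n)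
  have h4 : ev (2 * n + 1) (dl (2 * n) (PL L)) (vx (2 * n + 1 + 1) (DI (2 * n + 1) k C)) = 0 := by
    have hon : On K (vx (2 * n + 1 + 1) (DI (2 * n + 1) k C)) :=
      hv3 K hK _ (hSUP Y K hK (2 * n + 1) k C hsup).2
    rw [h5 _ (fun _ => (0 : ℝ)) _ ?_]
    · unfold ev
      simp
    · intro t ht
      have := hCPL Y K hK L hL (ex t) ?_
      · rw [hn] at this
        exact this
      · refine hK _ (hon t ht) _ ?_
        rintro y ⟨i, _, rfl⟩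
        exact ⟨_, rfl⟩
  rw [h4, ← h2] at h3
  have h6 := ha' (PL L) (vx (2 * n + 1) C - vx (2 * n + 1) (SdI (2 * n + 1) k C))
    (vx (2 * n + 1) (SdI (2 * n + 1) k C))
  rw [sub_add_cancel, h3, zero_add] at h6
  exact h6.symm

end

end Pool.Agent.H53.FL
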