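import Pool.Agent.H58.FL.Targets

open Topology

namespace Pool.Agent.H53.FL

open Pool.Agent.H58.FL Pool.Agent.H59 Pool.Agent.H48.FR

noncomputable section

theorem pf_LEI : T_LEI := by
  intro X p q α β ha x
  have e1 : ∀ i, i ≤ p → sh p (om x i) = sh (p + 1) x := by
    intro i hi
    funext j
    show x (if p + j < i then p + j else p + j + 1) = x (p + 1 + j)
    congr 1
    split_ifs <;> omega
  have e2 : ∀ i, p + 1 ≤ i → α (om x i) = α x := by
    intro i hi
    apply ha
    intro j hj
    show x (if j < i then j else j + 1) = x j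
    congr 1
    split_ifs <;> omega
  have e3 : ∀ i, sh p (om x (p + i)) = om (sh p x) i := by
    intro i
    funext j
    show x (if p + j < p + i then p + j else p + j + 1) = x (p + (if j < i then j else j + 1))
    congr 1
    split_ifs <;> omega
  have e4 : om (sh p x) 0 = sh (p + 1) x := by
    funext j
    show x (p + (if j < 0 then j else j + 1)) = x (p + 1 + j)
    congr 1
    split_ifs <;> omega
  show (∑ i ∈ Finset.range (p + q + 2), (-1 : ℝ) ^ i * (α (om x i) * β (sh p (om x i)))) =
    (∑ i ∈ Finset.range (p + 2), (-1 : ℝ) ^ i * α (om x i)) * β (sh (p + 1) x) +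
      (-1) ^ p * (α x * ∑ i ∈ Finset.range (q + 2), (-1 : ℝ) ^ i * β (om (sh p x) i))
  have h1 : p + q + 2 = (p + 1) + (q + 1) := by ring
  rw [h1, Finset.sum_range_add]
  have s1 : (∑ i ∈ Finset.range (p + 1), (-1 : ℝ) ^ i * (α (om x i) * β (sh p (om x i)))) =
      (∑ i ∈ Finset.range (p + 1), (-1 : ℝ) ^ i * α (om x i)) * β (sh (p + 1) x) := by
    rw [Finset.sum_mul]
    refine Finset.sum_congr rfl fun i hi => ?_
    have := Finset.mem_range.1 hi
    rw [e1 i (by omega)]
    ring
  have s2 : (∑ i ∈ Finset.range (q + 1), (-1 : ℝ) ^ (p + 1 + i) *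
      (α (om x (p + 1 + i)) * β (sh p (om x (p + 1 + i))))) =
      (-1) ^ p * (α x * ∑ i ∈ Finset.range (q + 1), (-1 : ℝ) ^ (i + 1) * β (om (sh p x) (i + 1))) := by
    rw [Finset.mul_sum, Finset.mul_sum]
    refine Finset.sum_congr rfl fun i _ => ?_
    rw [e2 (p + 1 + i) (by omega)]
    have : p + 1 + i = p + (i + 1) := by ring
    rw [this, e3, pow_add]
    ring
  rw [s1, s2, Finset.sum_range_succ (n := p + 1), e2 (p + 1) le_rfl,
    Finset.sum_range_succ' (n := q + 1), e4]
  rw [pow_succ (-1 : ℝ) p]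
  ring

end

end Pool.Agent.H53.FL
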