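import Pool.Agent.H58.FL.Targets

open Topology

namespace Pool.Agent.H53.FL

open Pool.Agent.H58.FL Pool.Agent.H59 Pool.Agent.H48.FR

noncomputable section

theorem dep_cup {X : Type} (p q : ℕ) (α β : Coc X) (ha : Dep p α) (hb : Dep q β) :
    Dep (p + q) (cup p α β) := by
  intro x y h
  show α x * β (sh p x) = α y * β (sh p y)
  rw [ha x y (fun i hi => h i (by omega)), hb (sh p x) (sh p y) (fun i hi => h (p + i) (by omega))]

theorem dep_PL {X : Type} (L : List (X → X → X → ℝ)) : Dep (2 * L.length) (PL L) := by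
  induction L with
  | nil => intro x y _; rfl
  | cons g L ih =>
    have h2 : Dep 2 (c2 g) := by
      intro x y h
      show g (x 0) (x 1) (x 2) = g (y 0) (y 1) (y 2)
      rw [h 0 (by omega), h 1 (by omega), h 2 (by omega)]
    have := dep_cup 2 (2 * L.length) (c2 g) (PL L) h2 ih
    have e : 2 * (g :: L).length = 2 + 2 * L.length := by
      simp only [List.length_cons]; ring
    rw [e]
    exact this

theorem dep_dl {X : Type} (k : ℕ) (α : Coc X) (ha : Dep k α) : Dep (k + 1) (dl k α) := by
  intro x y h
  show (∑ i ∈ Finset.range (k + 2), (-1 : ℝ) ^ i * α (om x i)) =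
    ∑ i ∈ Finset.range (k + 2), (-1 : ℝ) ^ i * α (om y i)
  refine Finset.sum_congr rfl fun i _ => ?_
  rw [ha (om x i) (om y i)]
  intro j hj
  show x (if j < i then j else j + 1) = y (if j < i then j else j + 1)
  apply h
  split_ifs <;> omega

theorem PL_append {X : Type} (L L' : List (X → X → X → ℝ)) :
    PL (L ++ L') = cup (2 * L.length) (PL L) (PL L') := by
  induction L with
  | nil =>
    funext x
    show PL L' x = 1 * PL L' (sh 0 x)
    rw [one_mul]
    congr 1
    funext j
    show x j = x (0 + j)
    rw [zero_add]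
  | cons g L ih =>
    funext x
    show c2 g x * PL (L ++ L') (sh 2 x) = (c2 g x * PL L (sh 2 x)) * PL L' (sh (2 * (g :: L).length) x)
    rw [ih]
    show c2 g x * (PL L (sh 2 x) * PL L' (sh (2 * L.length) (sh 2 x))) = _
    have : sh (2 * L.length) (sh 2 x) = sh (2 * (g :: L).length) x := by
      funext j
      show x (2 + (2 * L.length + j)) = x (2 * (g :: L).length + j)
      congr 1
      simp only [List.length_cons]; ring
    rw [this, mul_assoc]

theorem pf_LOW : T_LOW := by
  intro X
  refine ⟨?_, ?_, ?_, ?_, ?_, ?_, dep_cup, dep_dl, dep_PL, ?_, PL_append⟩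
  · intro θ x
    simp [dl, c1, om, d1, Finset.sum_range_succ]
    ring
  · intro g x
    simp [dl, c2, om, d2, Finset.sum_range_succ]
    ring
  · intro ξ x
    simp [dl, c3, om, d3, Finset.sum_range_succ]
    ring
  · intro θ x y h
    show θ (x 0) (x 1) = θ (y 0) (y 1)
    rw [h 0 (by omega), h 1 (by omega)]
  · intro g x y h
    show g (x 0) (x 1) (x 2) = g (y 0) (y 1) (y 2)
    rw [h 0 (by omega), h 1 (by omega), h 2 (by omega)]
  · intro g x y h
    show g (x 0) (x 1) (x 2) (x 3) = g (y 0) (y 1) (y 2) (y 3)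
    rw [h 0 (by omega), h 1 (by omega), h 2 (by omega), h 3 (by omega)]
  · intro θ x y z w
    simp only [d2, d1]
    ring

end

end Pool.Agent.H53.FL
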