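import Pool.Agent.H58.FL.Targets

open Topology

namespace Pool.Agent.H53.FL

open Pool.Agent.H58.FL Pool.Agent.H59 Pool.Agent.H48.FR

noncomputable section

/-- replace a closed factor `g + dθ` by `g`, one factor at a time -/
theorem ev_replace (hEVL : T_EVL) (hZA : T_ZA) {X : Type} (K : Set (Set X)) (hK : Down K)
    (n : ℕ) (g g' : X → X → X → ℝ) (θ : X → X → ℝ)
    (hg : Cl2 K g) (hg' : Cl2 K g')
    (he : ∀ x y z, g x y z = g' x y z + d1 θ x y z)
    (z : LL (2 * n + 1) X) (hz : On K z) (hb : bdL (2 * n) X z = 0) :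
    ∀ a b : ℕ, a + b = n → ev (2 * n) (PL (List.replicate a g' ++ List.replicate b g)) z =
      ev (2 * n) (PL (List.replicate n g')) z := by
  intro a b
  induction b generalizing a with
  | zero =>
    intro h
    have : a = n := by omega
    subst this
    simp
  | succ b ih =>
    intro h
    rw [← ih (a + 1) (by omega)]
    have e1 : List.replicate a g' ++ List.replicate (b + 1) g =
        List.replicate a g' ++ g :: List.replicate b g := by
      rw [List.replicate_succ]
    have e2 : List.replicate (a + 1) g' ++ List.replicate b g =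
        List.replicate a g' ++ g' :: List.replicate b g := by
      rw [List.replicate_succ', List.append_assoc]
      rfl
    rw [e1, e2]
    obtain ⟨-, -, h3, -, -, -, -⟩ := hEVL X (2 * n)
    have hza := hZA X K hK n (List.replicate a g') (List.replicate b g) θ (by simp; omega)
      (fun f hf => by rw [List.eq_of_mem_replicate hf]; exact hg')
      (fun f hf => by rw [List.eq_of_mem_replicate hf]; exact hg) z hz hb
    have h4 := h3 (PL (List.replicate a g' ++ g' :: List.replicate b g))
      (PL (List.replicate a g' ++ d1 θ :: List.replicate b g)) 1 z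
    rw [hza, mul_zero, add_zero] at h4
    rw [← h4]
    congr 1
    funext x
    have key : ∀ (L : List (X → X → X → ℝ)) (x : ℕ → X),
        PL (L ++ g :: List.replicate b g) x =
          PL (L ++ g' :: List.replicate b g) x + 1 * PL (L ++ d1 θ :: List.replicate b g) x := by
      intro L
      induction L with
      | nil =>
        intro x
        show g (x 0) (x 1) (x 2) * PL (List.replicate b g) (sh 2 x) =
          g' (x 0) (x 1) (x 2) * PL (List.replicate b g) (sh 2 x) +
            1 * (d1 θ (x 0) (x 1) (x 2) * PL (List.replicate b g) (sh 2 x))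
        rw [he]
        ring
      | cons f L ih =>
        intro x
        show f (x 0) (x 1) (x 2) * PL (L ++ g :: List.replicate b g) (sh 2 x) =
          f (x 0) (x 1) (x 2) * PL (L ++ g' :: List.replicate b g) (sh 2 x) +
            1 * (f (x 0) (x 1) (x 2) * PL (L ++ d1 θ :: List.replicate b g) (sh 2 x))
        rw [ih]
        ring
    exact key _ x

theorem PL_congr {X : Type} (S : Set X) :
    ∀ (n : ℕ) (g g' : X → X → X → ℝ), (∀ x ∈ S, ∀ y ∈ S, ∀ z ∈ S, g x y z = g' x y z) →
    ∀ x : ℕ → X, (∀ i, x i ∈ S) → PL (List.replicate n g) x = PL (List.replicate n g') x := by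
  intro n g g' h
  induction n with
  | zero => intro x _; rfl
  | succ n ih =>
    intro x hx
    show g (x 0) (x 1) (x 2) * PL (List.replicate n g) (sh 2 x) =
      g' (x 0) (x 1) (x 2) * PL (List.replicate n g') (sh 2 x)
    rw [h _ (hx 0) _ (hx 1) _ (hx 2), ih (sh 2 x) (fun i => hx (2 + i))]

theorem down_KN (n N : ℕ) : Down (KN n N) := by
  rintro S ⟨x, hx⟩ T hT
  exact ⟨x, hT.trans hx⟩

theorem cl2_sum {X : Type} (K : Set (Set X)) {ι : Type} (s : Finset ι) (g : ι → X → X → X → ℝ)
    (h : ∀ l ∈ s, Cl2 K (g l)) : Cl2 K (fun a b c => ∑ l ∈ s, g l a b c) := by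
  intro S hS x hx y hy z hz w hw
  show (∑ l ∈ s, g l y z w) - (∑ l ∈ s, g l x z w) + (∑ l ∈ s, g l x y w) -
    (∑ l ∈ s, g l x y z) = 0
  rw [← Finset.sum_sub_distrib, ← Finset.sum_add_distrib, ← Finset.sum_sub_distrib]
  exact Finset.sum_eq_zero fun l hl => h l hl S hS x hx y hy z hz w hw

theorem cl2_add_d1 {X : Type} (K : Set (Set X)) (g : X → X → X → ℝ) (θ : X → X → ℝ)
    (h : Cl2 K g) : Cl2 K (fun a b c => g a b c + d1 θ a b c) := by
  intro S hS x hx y hy z hz w hw
  have := h S hS x hx y hy z hz w hw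
  simp only [d2, d1] at this ⊢
  linarith

theorem pf_TOT (hTCC : T_TCC) (hPER : T_PER) (hVTX : T_VTX) (hCEL : T_CEL) (hKNC : T_KNC)
    (hEVL : T_EVL) (hZA : T_ZA) (hEXP : T_EXP) (hWRD : T_WRD) (hPRM : T_PRM) : T_TOT := by
  intro n
  obtain ⟨N₀, hN₀⟩ := hKNC n
  refine ⟨max N₀ 1, fun N hN H hH => ?_⟩
  obtain ⟨hcg, hcf, hdec⟩ := hN₀ N (le_trans (le_max_left _ _) hN)
  have hN1 : 1 ≤ N := le_trans (le_max_right _ _) hN
  have hHg : (⇑H : (Fin (2 * n) → ℝ) → (Fin n → CPn 1)) = gY N := funext hH
  rcases Nat.eq_zero_or_pos n with hn0 | hn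
  · subst hn0
    simp
  set K := KN n N with hKdef
  set z := vx (2 * n + 1) (ZZ (2 * n) N H) with hzdef
  -- `z` is a cycle
  have hcyc : bdL (2 * n) _ z = 0 := by
    obtain ⟨hv1, -, -⟩ := hVTX (Fin n → CPn 1) (Fin n → CPn 1) (2 * n)
    rw [hzdef, hv1, hTCC _ (2 * n) N H (by omega) ?_, map_zero]
    rw [hHg]
    exact (hPER n N hN1).1
  -- `z` is supported in `K`
  have hon : On K z := by
    obtain ⟨-, -, hv3⟩ := hVTX (Fin n → CPn 1) (Fin n → CPn 1) (2 * n + 1)
    apply hv3 K (down_KN n N)
    intro σ hσ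
    obtain ⟨x, hx⟩ := (hCEL _ (2 * n) N H).2.2.1 σ hσ
    refine ⟨x, ?_⟩
    rw [hHg] at hx
    exact hx
  have hcs : Cl2 K (fun a b c => ∑ l, fl n l a b c) := cl2_sum K _ _ fun l _ => hcf l
  obtain ⟨-, -, -, h4, h5, -, -⟩ := hEVL (Fin n → CPn 1) (2 * n)
  -- step 1
  have s1 : ev (2 * n) (PL (List.replicate n (gf n))) z =
      ev (2 * n) (PL (List.replicate n (fun a b c => (∑ l, fl n l a b c) + d1 (et n) a b c))) z := by
    apply h5
    intro t ht
    apply PL_congr (Set.range t) n
    · intro x hx y hy w hw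
      exact hdec _ (hon t ht) x hx y hy w hw
    · intro i
      exact ⟨_, rfl⟩
  have s2 := ev_replace hEVL hZA K (down_KN n N) n
    (fun a b c => (∑ l, fl n l a b c) + d1 (et n) a b c) (fun a b c => ∑ l, fl n l a b c) (et n)
    (cl2_add_d1 K _ _ hcs) hcs (fun _ _ _ => rfl) z hon hcyc 0 n (by omega)
  rw [List.replicate_zero, List.nil_append] at s2
  rw [s1, s2]
  -- expansion
  have s3 : (PL (List.replicate n (fun a b c => ∑ l, fl n l a b c)) : Coc (Fin n → CPn 1)) =
      fun x => ∑ w ∈ (Finset.univ : Finset (Fin n → Fin n)),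
        PL (List.ofFn fun i => fl n (w i)) x := by
    funext x
    exact hEXP _ n n (fun l => fl n l) x
  rw [s3, h4]
  classical
  have s4 : ∀ w : Fin n → Fin n, ev (2 * n) (PL (List.ofFn fun i => fl n (w i))) z =
      if Function.Bijective w then ev (2 * n) (PL (List.ofFn fun i => fl n i)) z else 0 := by
    intro w
    split_ifs with hw
    · have hperm : (List.ofFn fun i => fl n (w i)).Perm (List.ofFn fun i => fl n i) := by
        have := Equiv.Perm.ofFn_comp_perm (Equiv.ofBijective w hw) (fun i => fl n i)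
        exact this
      refine hPRM _ K (down_KN n N) n _ _ hperm (by simp) ?_ z hon hcyc
      intro g hg
      rw [List.mem_ofFn] at hg
      obtain ⟨i, rfl⟩ := hg
      exact hcf _
    · have hns : ¬ Function.Surjective w := fun hs => hw (Finite.injective_iff_surjective.2 hs |>.bijective_of_finite)
      rw [Function.Surjective] at hns
      push Not at hns
      obtain ⟨l, hl⟩ := hns
      exact hWRD n N H hH w l hl
  rw [Finset.sum_congr rfl fun w _ => s4 w, ← Finset.sum_filter, Finset.sum_const, nsmul_eq_mul]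
  congr 1
  have hc : (Finset.univ.filter fun w : Fin n → Fin n => Function.Bijective w).card =
      Fintype.card (Equiv.Perm (Fin n)) := by
    rw [← Fintype.card_subtype]
    exact Fintype.card_congr (Equiv.subtypeEquivRight (fun _ => Iff.rfl) |>.trans
      (Equiv.ofBijective (fun w => Equiv.ofBijective w.1 w.2)
        ⟨fun a b h => Subtype.ext (by
          have := congrArg (fun e : Equiv.Perm (Fin n) => (e : Fin n → Fin n)) h
          exact this), fun e => ⟨⟨e, e.bijective⟩, by ext; rfl⟩⟩))
  rw [hc, Fintype.card_perm, Fintype.card_fin]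

end

end Pool.Agent.H53.FL
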