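import Pool.Agent.H58.FL.Targets

open Topology

namespace Pool.Agent.H53.FL

open Pool.Agent.H58.FL Pool.Agent.H59 Pool.Agent.H48.FR

noncomputable section

theorem vx_single {Y : Type} [TopologicalSpace Y] (n : ℕ) (σ : Smp n Y) (r : ℤ) :
    vx n (Finsupp.single σ r) = Finsupp.single (⇑σ ∘ vtx n) r := by
  simp [vx, Finsupp.mapDomain_single]

theorem fc_vtx {Y : Type} [TopologicalSpace Y] (n : ℕ) (σ : Smp (n + 1) Y) (i : Fin (n + 1)) :
    ⇑(fc σ i) ∘ vtx n = (⇑σ ∘ vtx (n + 1)) ∘ i.succAbove := by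
  funext j
  show σ (stdSimplex.map (Fin.succAbove i) (stdSimplex.vertex j)) =
    σ (stdSimplex.vertex (i.succAbove j))
  rw [stdSimplex.map_vertex]

theorem pf_VTX : T_VTX := by
  intro Y Z _ _ n
  refine ⟨?_, ?_, ?_⟩
  · intro c
    exact altbd_mapDomain ℤ (fun σ i => fc σ i) (fun (v : Fin (n + 1) → Y) i => v ∘ i.succAbove)
      (fun σ => ⇑σ ∘ vtx (n + 1)) (fun σ => ⇑σ ∘ vtx n) (fun σ i => (fc_vtx n σ i).symm) c
  · intro g c
    induction c using Finsupp.induction_linear with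
    | zero => simp
    | add u v hu hv => rw [map_add, map_add, map_add, map_add, hu, hv]
    | single a r =>
      rw [pf_single, vx_single, vx_single, mapL_single]
      rfl
  · intro K hK c hc t ht
    classical
    have h1 : t ∈ (Finsupp.mapDomain (fun σ : Smp n Y => ⇑σ ∘ vtx n) c).support := ht
    have h2 := Finsupp.mapDomain_support h1
    rw [Finset.mem_image] at h2
    obtain ⟨σ, hσ, rfl⟩ := h2
    refine hK _ (hc σ hσ) _ ?_
    rintro y ⟨i, rfl⟩
    exact ⟨_, rfl⟩

end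

end Pool.Agent.H53.FL
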