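import Pool.Agent.H58.FL.Targets

open Topology

namespace Pool.Agent.H53.FL

open Pool.Agent.H58.FL Pool.Agent.H59 Pool.Agent.H48.FR

noncomputable section

theorem fs_ex {X : Type} (k : ℕ) (t : Fin (k + 1) → X) (m : ℕ) : fs m (ex t) ⊆ Set.range t := by
  rintro y ⟨i, _, rfl⟩
  exact ⟨_, rfl⟩

/-- the general principle: a coboundary on `K` vanishes on cycles of `K`. -/
theorem ev_exact (hEVB : T_EVB) (hEVL : T_EVL) {X : Type} (K : Set (Set X)) (n : ℕ) (hn : 1 ≤ n)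
    (α : Coc X) (ha : Dep (2 * n - 1) α) (β : Coc X)
    (h : ∀ x : ℕ → X, (∀ i, x i ∈ fs (2 * n) x) → fs (2 * n) x ∈ K → β x = dl (2 * n - 1) α x)
    (hK : Down K) (z : LL (2 * n + 1) X) (hz : On K z) (hb : bdL (2 * n) X z = 0) :
    ev (2 * n) β z = 0 := by
  obtain ⟨k, hk⟩ : ∃ k, 2 * n = k + 1 := ⟨2 * n - 1, by omega⟩
  have hk' : 2 * n - 1 = k := by omega
  rw [hk'] at ha h
  revert h z
  rw [hk]
  intro z hz hb h
  obtain ⟨-, -, -, -, h5, -, -⟩ := hEVL X (k + 1)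
  rw [h5 β (dl k α) z, ← hEVB X k α z ha, hb]
  · unfold ev
    exact Finsupp.sum_zero_index
  · intro t ht
    apply h
    · intro i
      refine ⟨min i (k + 1), min_le_right _ _, ?_⟩
      show t ⟨min (min i (k + 1)) (k + 1), _⟩ = t ⟨min i (k + 1), _⟩
      congr 1
      apply Fin.ext
      simp
    · exact hK _ (hz t ht) _ (fs_ex (k + 1) t (k + 1))

theorem pf_ZA (hLOW : T_LOW) (hLEI : T_LEI) (hCPL : T_CPL) (hEVB : T_EVB) (hEVL : T_EVL) :
    T_ZA := by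
  intro X K hK n L L' θ hn hL hL' z hz hb
  obtain ⟨h1, -, -, hd1, hd2, -, hcup, -, hPL, -, happ⟩ := hLOW X
  have hdep : Dep (2 * n - 1) (cup (2 * L.length) (PL L) (cup 1 (c1 θ) (PL L'))) := by
    have := hcup (2 * L.length) (1 + 2 * L'.length) (PL L) (cup 1 (c1 θ) (PL L')) (hPL L)
      (hcup 1 (2 * L'.length) (c1 θ) (PL L') (hd1 θ) (hPL L'))
    have e : 2 * n - 1 = 2 * L.length + (1 + 2 * L'.length) := by omega
    rw [e]; exact this
  refine ev_exact hEVB hEVL K n (by omega) _ hdep _ ?_ hK z hz hb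
  intro x _ hx
  have e : 2 * n - 1 = 2 * L.length + (1 + 2 * L'.length) := by omega
  rw [e, hLEI X (2 * L.length) (1 + 2 * L'.length) (PL L) _ (hPL L) x,
    hLEI X 1 (2 * L'.length) (c1 θ) (PL L') (hd1 θ) (sh (2 * L.length) x)]
  have hc1 : dl (2 * L.length) (PL L) x = 0 := by
    apply hCPL X K hK L hL
    refine hK _ hx _ ?_
    rintro y ⟨i, hi, rfl⟩
    exact ⟨i, by omega, rfl⟩
  have hc2 : dl (2 * L'.length) (PL L') (sh 1 (sh (2 * L.length) x)) = 0 := by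
    apply hCPL X K hK L' hL'
    refine hK _ hx _ ?_
    rintro y ⟨i, hi, rfl⟩
    exact ⟨2 * L.length + (1 + i), by omega, rfl⟩
  rw [hc1, hc2, happ L (d1 θ :: L')]
  show PL L x * (c2 (d1 θ) (sh (2 * L.length) x) * PL L' (sh 2 (sh (2 * L.length) x))) = _
  rw [h1 θ (sh (2 * L.length) x)]
  have : (-1 : ℝ) ^ (2 * L.length) = 1 := by rw [pow_mul]; norm_num
  rw [this]
  show PL L x * (d1 θ (sh (2 * L.length) x 0) (sh (2 * L.length) x 1) (sh (2 * L.length) x 2) *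
    PL L' (sh 2 (sh (2 * L.length) x))) = _
  ring

end

end Pool.Agent.H53.FL
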